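import Pool.Agent.Q273.SPL.Obp

/-!
# `L(E/F, s)` over all number fields `F`: fields with one bad place or small local degrees suffice

`E` is an elliptic curve over a number field `K` (in the problem `K = ℚ`), and `F` runs through the finite
extensions of `K` in its algebraic closure. The minimal models `V` and the Euler product `LSeries V s`
with the factors at all primes are those of `Pool.Agent.TH322.BC.Defs`; `Lout S V s` is the Euler
product without the factors at the primes above the finite set `S` of primes of `K`.
-/

set_option autoImplicit false

namespace Pool.Agent.Results.MP_bf9450_nt.OneBadPlaceRelation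

open NumberField IsDedekindDomain
open Pool.Agent.TH322.BC.Edge (MinimalModels)
open Pool.Agent.Q273.SQ (Lout)
open Q273.SPL.Obp

/-- **Relations of `L`-functions with one bad place.** Let `E` be an elliptic curve over a number
field `K` (for example `ℚ`) and `N` any finite extension of `K` (a measure of fineness).
1. For every finite extension `F₀` of `K` the function `L(E/F₀, s)` is, up to the Euler factors at finitely many
primes, a product of integral powers of the functions `L(E/F_j, s)` of finitely many number fields
`F_j ⊇ F₀`, each of which is totally complex with all places of non-semistable reduction above one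
prime of `N`, or has for a prime number `l` only places at which `E` becomes semistable in local degree a
power of `l`.
2. So if `L(E/F, s)` has a meromorphic continuation for all `F` of these two kinds, it has one for all
finite extensions `F` of `K`. -/
theorem result (K : Type) [Field K] [NumberField K] (E : WeierstrassCurve K) (hE : E.IsElliptic)
    (N : IntermediateField K (AlgebraicClosure K)) [NumberField N] :
    (∀ (F₀ : IntermediateField K (AlgebraicClosure K)) [NumberField F₀],
      ∃ (ι : Type) (_ : Fintype ι) (F : ι → IntermediateField K (AlgebraicClosure K))
        (_ : ∀ j, NumberField (F j)) (n : ι → ℤ),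
        (∀ j, F₀ ≤ F j ∧ (OnePlace E N (F j) ∨ LocalPower E (F j))) ∧
        ∀ (V₀ : HeightOneSpectrum (𝓞 F₀) → WeierstrassCurve (𝓞 F₀))
          (V : ∀ j, HeightOneSpectrum (𝓞 (F j)) → WeierstrassCurve (𝓞 (F j))),
          MinimalModels (E.map (algebraMap K F₀)) V₀ →
          (∀ j, MinimalModels (E.map (algebraMap K (F j))) (V j)) →
          ∃ S : Finset (HeightOneSpectrum (𝓞 K)), ∀ s : ℂ, 3 / 2 < s.re →
            Lout S V₀ s = ∏ j, Lout S (V j) s ^ n j) ∧
    ((∀ (F : IntermediateField K (AlgebraicClosure K)) [NumberField F],
        OnePlace E N F ∨ LocalPower E F → PowerContinues (E.map (algebraMap K F)) 1) →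
      ∀ (F : IntermediateField K (AlgebraicClosure K)) [NumberField F],
        PowerContinues (E.map (algebraMap K F)) 1) :=
  partA K E hE N

end Pool.Agent.Results.MP_bf9450_nt.OneBadPlaceRelation
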