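import Pool.Agent.Q273.SPL.Obp

/-!
# A power of `L(E/F, s)` over all number fields `F`: semistable fields and fields with one bad place suffice

`E` is an elliptic curve over a number field `K` (in the problem `K = ℚ`), and `F` runs through the finite
extensions of `K` in its algebraic closure. The minimal models `V` and the Euler product `LSeries V s`
with the factors at all primes are those of `Pool.Agent.TH322.BC.Defs`.
-/

set_option autoImplicit false

namespace Pool.Agent.Results.MP_bf9450_nt.PowersFromSemistableFields

open NumberField IsDedekindDomain
open Q273.SPL.Obp

/-- **Powers of `L(E/F, s)` from fields of degree divisible by `M`.** Let `E` be an elliptic curve over a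
number field `K` (for example `ℚ`), `N` any finite extension of `K` and `M > 0`.
If `L(E/F, s)` has a meromorphic continuation for all `F` of degree divisible by `M` over `K` such that `F`
is totally complex with all places of non-semistable reduction above one prime of `N`, or `E` is
semistable over `F` at all places, then for every finite extension `F` of `K` a power `L(E/F, s) ^ m`,
`m > 0`, has one. -/
theorem result (K : Type) [Field K] [NumberField K] (E : WeierstrassCurve K) (hE : E.IsElliptic)
    (N : IntermediateField K (AlgebraicClosure K)) [NumberField N] (M : ℕ) (hM : 0 < M)
    (h : ∀ (F : IntermediateField K (AlgebraicClosure K)) [NumberField F],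
      M ∣ Module.finrank K F →
      OnePlace E N F ∨ (∀ w, Q273.SPL.Obp.IsFinitePlace w → SemistableAt E F w) →
      PowerContinues (E.map (algebraMap K F)) 1)
    (F₀ : IntermediateField K (AlgebraicClosure K)) [NumberField F₀] :
    ∃ m : ℕ, 0 < m ∧ PowerContinues (E.map (algebraMap K F₀)) m :=
  partB K E hE N M hM h F₀

end Pool.Agent.Results.MP_bf9450_nt.PowersFromSemistableFields
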