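import Mathlib
import Pool.Agent.Q7.RL.Model
import Pool.Agent.Q290.ER.Three

/-!
# Elliptic curves with a zero of order three over a Galois extension

`M/K` is a Galois extension of number fields with group `M ≃ₐ[K] M`, an arbitrary finite group, and
`E` is an elliptic curve over `K` with an integral equation `W` (`IsModel E W`). In the problem `K`
is the field of rational numbers.

The L-functions are real ones. `LSeries V` is the Euler product `L(E/F, s)` of the problem, computed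
from the models `V`, minimal at all primes of `F`, for `Re s > 3/2`.
`Pool.Agent.Q92.RT.twistedL M W φ` is `L(E ⊗ φ, s)` for a class function `φ` of the Galois group:
`exp ∑ φ(Frob_v ^ n) (α_v ^ n + β_v ^ n) / (n q_v ^ (n s))` over `n ≥ 1` and the primes `v` of `K`
which do not divide `6` and the discriminant of `W` and are unramified in `M`; the finitely many
Euler factors left out have no zeros and poles for `Re s ≥ 1`. `HasOrder g s₀ n` and `LOrder E s₀ n`
say that `g`, or `L(E, s)`, has a meromorphic continuation to `ℂ`, of order `n` at `s₀`.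
`Orders E W 1 n o`: `n χ` is the order at `1` of `L(E ⊗ χ, s)`, and `o F` the order of `L(E/F, s)`.

The assumptions are instances of the conjecture, known if `E` is automorphic over `M` (Brauer;
solvable descent). `Pool.Agent.Q92.RT.Automorphic M W 1`: `L(E ⊗ χ, s)` has a meromorphic
continuation for the irreducible characters `χ` of the Galois group, and `L(E/M^H ⊗ ψ, s)` has one
which is holomorphic at `1` for the linear characters `ψ` of the SOLVABLE subgroups `H`; for the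
other subgroups nothing is known. `FunctionalEquations M W`: the functional equations
`Λ(χ, s) = w(χ) Λ(χ̄, 2 - s)` near `s = 1`, with `w(χ) = 1` for symplectic `χ` (Rohrlich).

`Pool.Agent.Q290.Schur.Ort χ` says that `χ` is orthogonal (real, Frobenius-Schur indicator `1`),
`lc ψ` is the linear character `ψ` as a complex function, and `IsInduced H (lc ψ) χ` says that `χ` is
the character induced by `ψ`.
-/

set_option autoImplicit false
set_option linter.unusedSectionVars false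

namespace Pool.Agent.Results.MP_bf9450_nt.ZerosOfOrderThree

open NumberField Pool.Agent.H302R2 Pool.Agent.H302R3 Pool.Agent.H541R3.ART Pool.Agent.W446.AS
  Pool.Agent.H302R5 Pool.Agent.H302R6 Pool.Agent.Q7.TZ Pool.Agent.Q7.SZ Pool.Agent.Q7.RL
  Pool.Agent.Q92.RT Pool.Agent.W353.NF Pool.Agent.H341R2.EC Pool.Agent.Q290.Schur

/-- the order `n χ` of `L(E ⊗ χ, s)` at `s = 1` is zero, or one and `χ` is orthogonal -/
def Simple {G : Type} [Group G] (n : (G → ℂ) → ℤ) (χ : G → ℂ) : Prop :=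
  n χ = 0 ∨ (Ort χ ∧ n χ = 1)

/-- The pattern with poles: `χ₀` and its dual (which may be `χ₀` itself, then `χ₀` is orthogonal)
have simple poles and are not monomial, `ε` has a zero of order one or two, and at most `4 - n ε`
(`3 - n ε` if `χ₀` is not self-dual) other characters, all orthogonal, have simple zeros. -/
def PolePattern {G : Type} [Group G] (n : (G → ℂ) → ℤ) (ε : G →* ℂˣ) : Prop :=
  (n (lc ε) = 1 ∨ n (lc ε) = 2) ∧ ∃ χ₀ ∈ Irr G, n χ₀ = -1 ∧
    n (fun g => χ₀ g⁻¹) = -1 ∧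
    (∀ (H : Subgroup G) (ψ : H →* ℂˣ), ¬ IsInduced H (lc ψ) χ₀) ∧
    (∀ χ ∈ Irr G, χ ≠ lc ε → χ ≠ χ₀ → χ ≠ (fun g => χ₀ g⁻¹) → Simple n χ) ∧
    ((Ort χ₀ ∧ n (lc ε) + {χ | χ ∈ Irr G ∧ χ ≠ lc ε ∧ χ ≠ χ₀ ∧ n χ ≠ 0}.ncard ≤ 4) ∨
      ((fun g => χ₀ g⁻¹) ≠ χ₀ ∧ n (lc ε) + {χ | χ ∈ Irr G ∧ χ ≠ lc ε ∧ χ ≠ χ₀ ∧
        χ ≠ (fun g => χ₀ g⁻¹) ∧ n χ ≠ 0}.ncard ≤ 3))

/-- Let `L(E/M, s)` have order THREE at the centre `s = 1`, and let `n χ` and `o F` be the orders
of `L(E ⊗ χ, s)` and `L(E/F, s)` at `s = 1`.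
(1) `L(E/F, s)` is holomorphic at `s = 1` for ALL fields `F` between `K` and `M`, and so is
`L(E/F ⊗ ψ, s)` for all linear characters `ψ` of the Galois group of `M/F`.
(2) `L(E ⊗ χ, s)` is holomorphic at `1` for monomial `χ`, and for all `χ` if the Galois group is
solvable.
(3) There is a trivial or quadratic `ε` such that one of the following holds: only `ε` occurs, with a
zero of order three; there are only simple zeros, at orthogonal characters, at most three, and none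
at `ε`; `ε` has a simple zero and another trivial or quadratic character a double zero, and all other
`n χ` are `0`; `ε`, `l` and `l⁻¹` have simple zeros for a linear character `l` of order larger than
two, and all other `n χ` are `0`; or the Galois group is not solvable and the pattern with poles
holds. -/
theorem result
    (K M : Type) [Field K] [NumberField K] [Field M] [NumberField M] [Algebra K M] [IsGalois K M]
    (E : WeierstrassCurve K) (hE : E.IsElliptic) (W : WeierstrassCurve (𝓞 K)) (hW : IsModel E W)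
    (Λ : FunctionalEquations M W) (a : Automorphic M W 1)
    (hM : LOrder (E.map (algebraMap K M)) 1 3) :
    ∃ (n : ((M ≃ₐ[K] M) → ℂ) → ℤ) (o : IntermediateField K M → ℤ), Orders E W 1 n o ∧
    (∀ F, 0 ≤ o F) ∧
    (∀ (H : Subgroup (M ≃ₐ[K] M)) (ψ : H →* ℂˣ), ∃ k : ℤ, 0 ≤ k ∧
      HasOrder (twistedL M W (induced H ψ)) 1 k) ∧
    (∀ χ ∈ Irr (M ≃ₐ[K] M), ∀ (H : Subgroup (M ≃ₐ[K] M)) (ψ : H →* ℂˣ),
      IsInduced H (lc ψ) χ → 0 ≤ n χ) ∧
    (Group.IsSolvable (M ≃ₐ[K] M) → ∀ χ ∈ Irr (M ≃ₐ[K] M), 0 ≤ n χ) ∧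
    ∃ ε : (M ≃ₐ[K] M) →* ℂˣ, ε * ε = 1 ∧
      ((n (lc ε) = 3 ∧ ∀ χ ∈ Irr (M ≃ₐ[K] M), χ ≠ lc ε → n χ = 0) ∨
      ((∀ χ ∈ Irr (M ≃ₐ[K] M), Simple n χ) ∧ n (lc ε) = 0 ∧
        {χ | χ ∈ Irr (M ≃ₐ[K] M) ∧ n χ ≠ 0}.ncard ≤ 3) ∨
      (n (lc ε) = 1 ∧ ∃ μ : (M ≃ₐ[K] M) →* ℂˣ, μ ≠ ε ∧ μ * μ = 1 ∧ n (lc μ) = 2 ∧
        ∀ χ ∈ Irr (M ≃ₐ[K] M), χ ≠ lc ε → χ ≠ lc μ → n χ = 0) ∨
      (n (lc ε) = 1 ∧ ∃ l : (M ≃ₐ[K] M) →* ℂˣ, l * l ≠ 1 ∧ n (lc l) = 1 ∧ n (lc l⁻¹) = 1 ∧
        ∀ χ ∈ Irr (M ≃ₐ[K] M), χ ≠ lc ε → χ ≠ lc l → χ ≠ lc l⁻¹ → n χ = 0) ∨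
      (¬ Group.IsSolvable (M ≃ₐ[K] M) ∧ PolePattern n ε)) := by
  classical
  obtain ⟨n₀, o, ho₀⟩ := exists_orders (M := M) hE hW (by simp) a
  set A := (TwistData.ofCurve a).model with hA
  have hn : ∀ χ ∈ Irr (M ≃ₐ[K] M), A.ord χ = n₀ χ := fun χ hχ => by
    rw [hA, model_ord _ hχ, ho₀.ord a hχ]
  have ho : Orders E W 1 A.ord o :=
    ⟨fun χ hχ => by rw [hn χ hχ]; exact ho₀.twist χ hχ, ho₀.field⟩
  have htop : o ⊤ = 3 := ho.eq_of_lorder_top hE hW (by simp) a hM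
  have hb := ho.mbot hE hW (by simp) a
  rw [htop] at hb
  obtain ⟨h1, h2, -, h4, ε, hε, h5⟩ := Pool.Agent.Q290.ER.Three.result (A := A) (Λ.model a) hb
  have hlin : ∀ (H : Subgroup (M ≃ₐ[K] M)) (ψ : H →* ℂˣ), ∃ k : ℤ, 0 ≤ k ∧
      HasOrder (twistedL M W (induced H ψ)) 1 k := by
    intro H ψ
    have h0 := h1 H ψ
    rw [hA, model_Lin] at h0
    obtain ⟨m, hm⟩ := Lin_order_ne_top (TwistData.ofCurve a) H ψ
    refine ⟨m, ?_, (ind_iff a H ψ m).2 hm⟩
    rw [hm] at h0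
    exact_mod_cast h0
  have hL : ∀ χ ∈ Irr (M ≃ₐ[K] M), 0 ≤ meromorphicOrderAt (A.L χ) 1 → 0 ≤ A.ord χ := by
    intro χ hχ h
    rw [← A.coe_ord hχ] at h
    exact_mod_cast h
  refine ⟨A.ord, o, ho, fun F => ?_, hlin, fun χ hχ H ψ h => hL χ hχ (h2 χ hχ H ψ h),
    fun hG χ hχ => hL χ hχ (h4 hG χ hχ), ε, hε, h5⟩
  obtain ⟨k, hk, h3⟩ := hlin F.fixingSubgroup 1
  have h4 := (ind_iff a F.fixingSubgroup 1 k).1 h3
  rw [ho.lin hE hW (by simp) a F] at h4
  have h5 : o F = k := by exact_mod_cast h4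
  omega

end Pool.Agent.Results.MP_bf9450_nt.ZerosOfOrderThree
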